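import Mathlib
import Pool.Agent.Helper897.EntireMontel
import Pool.Agent.Helper897.Generic

set_option autoImplicit false

open Complex Metric Filter Topology

namespace Pool.Agent.Results.MP_2fa38d_an.UniversalImpliesCondition2

noncomputable section

/-- The weight `ρ(z) = |Im z| + log (1 + |z|^2)`. -/
def rho (z : ℂ) : ℝ := |z.im| + Real.log (1 + ‖z‖ ^ 2)

/-- The algebra of Fourier transforms of compactly supported distributions: entire functions with
`|f(z)| ≤ A exp (B ρ(z))`. -/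
def InEhat (f : ℂ → ℂ) : Prop :=
  Differentiable ℂ f ∧ ∃ A B : ℝ, 0 < A ∧ 0 < B ∧ ∀ z, ‖f z‖ ≤ A * Real.exp (B * rho z)

/-- A multiplicity sequence: distinct points `a n` without finite accumulation point and positive
integers `p n`. -/
def IsMultiplicitySequence (a : ℕ → ℂ) (p : ℕ → ℕ) : Prop :=
  Function.Injective a ∧ (∀ R : ℝ, {n | ‖a n‖ ≤ R}.Finite) ∧ ∀ n, 1 ≤ p n

/-- `V ⊂ V(f)`: `f` vanishes to order at least `p n` at `a n` for every `n`. -/
def VanishesOn (a : ℕ → ℂ) (p : ℕ → ℕ) (f : ℂ → ℂ) : Prop :=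
  ∀ n κ, κ < p n → iteratedDeriv κ f (a n) = 0

/-- Universal interpolating sequences. -/
def IsUniversal (a : ℕ → ℂ) (p : ℕ → ℕ) : Prop :=
  ∀ lam : ℕ → ℕ → ℂ,
    (∃ A B : ℝ, 0 < A ∧ 0 < B ∧ ∀ n κ, κ < p n → ‖lam n κ‖ ≤ A * Real.exp (B * rho (a n))) →
    ∃ g : ℂ → ℂ, InEhat g ∧
      ∀ n κ, κ < p n → iteratedDeriv κ g (a n) / (κ.factorial : ℂ) = lam n κ

/-- Condition (2). -/
def Condition2 (a : ℕ → ℂ) (p : ℕ → ℕ) (f : ℂ → ℂ) : Prop :=
  (InEhat f ∧ ∃ z, f z ≠ 0) ∧ VanishesOn a p f ∧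
    ∃ ε c : ℝ, 0 < ε ∧ 0 < c ∧
      ∀ n, ε * Real.exp (-(c * rho (a n))) ≤ ‖iteratedDeriv (p n) f (a n)‖ / ((p n).factorial : ℝ)

open Pool.Agent.Helper897.EntireMontel Pool.Agent.Helper897.Generic

lemma rho_eq : rho = Pool.Agent.Helper897.EntireMontel.rho := rfl

/-- The data attached to a binary sequence. -/
def D (p : ℕ → ℕ) (x : ℕ → Bool) (k κ : ℕ) : ℂ := if κ = p k - 1 ∧ x k = true then 1 else 0

/-- The set of binary sequences with an interpolant of size `m`. -/
def S (a : ℕ → ℂ) (p : ℕ → ℕ) (m : ℕ) : Set (ℕ → Bool) :=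
  {x | ∃ g : ℂ → ℂ, Differentiable ℂ g ∧ (∀ z, ‖g z‖ ≤ m * Real.exp (m * rho z)) ∧
    ∀ k κ, κ < p k → iteratedDeriv κ g (a k) / (κ.factorial : ℂ) = D p x k κ}

lemma S_closed (a : ℕ → ℂ) (p : ℕ → ℕ) (m : ℕ) : IsClosed (S a p m) := by
  apply IsSeqClosed.isClosed
  intro x y hx hxy
  choose g hg hb hd using hx
  obtain ⟨φ, hφ, G, hG, hGb, hlim⟩ := montel (m := (m:ℝ)) (Nat.cast_nonneg m) g hg hb
  refine ⟨G, hG, hGb, ?_⟩
  intro k κ hκ
  have h1 := (iter_limit (fun j => hg (φ j)) hlim κ).tendsto_at (Set.mem_univ (a k))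
  have h2 : Tendsto (fun j => iteratedDeriv κ (g (φ j)) (a k) / (κ.factorial : ℂ)) atTop
      (𝓝 (iteratedDeriv κ G (a k) / (κ.factorial : ℂ))) := h1.div_const _
  have h3 : ∀ᶠ j in atTop, x (φ j) k = y k := by
    have h4 : Tendsto (fun j => x (φ j) k) atTop (𝓝 (y k)) :=
      ((tendsto_pi_nhds.1 hxy) k).comp hφ.tendsto_atTop
    rw [nhds_discrete, tendsto_pure] at h4
    exact h4
  have h5 : Tendsto (fun j => iteratedDeriv κ (g (φ j)) (a k) / (κ.factorial : ℂ)) atTop
      (𝓝 (D p y k κ)) := by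
    apply tendsto_const_nhds.congr'
    filter_upwards [h3] with j hj
    rw [hd (φ j) k κ hκ]
    unfold D
    rw [hj]
  exact tendsto_nhds_unique h2 h5

lemma S_cover {a : ℕ → ℂ} {p : ℕ → ℕ} (hU : IsUniversal a p) : ⋃ m, S a p m = Set.univ := by
  apply Set.eq_univ_of_forall
  intro x
  obtain ⟨g, ⟨hg, A, B, hA, hB, hb⟩, hd⟩ := hU (D p x) ⟨1, 1, one_pos, one_pos, by
    intro n κ _
    have h1 : 1 ≤ Real.exp (1 * rho (a n)) := Real.one_le_exp (by
      rw [one_mul]
      exact rho_nonneg _)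
    have h2 : ‖D p x n κ‖ ≤ 1 := by
      unfold D
      split_ifs <;> simp
    linarith⟩
  obtain ⟨m, hm⟩ := exists_nat_ge (max A B)
  rw [Set.mem_iUnion]
  refine ⟨m, g, hg, ?_, hd⟩
  intro z
  have h1 : A ≤ m := (le_max_left _ _).trans hm
  have h2 : B ≤ m := (le_max_right _ _).trans hm
  have h3 := rho_nonneg z
  calc ‖g z‖ ≤ A * Real.exp (B * rho z) := hb z
    _ ≤ m * Real.exp (m * rho z) := by
      apply mul_le_mul h1 _ (Real.exp_pos _).le (Nat.cast_nonneg m)
      apply Real.exp_le_exp.2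
      exact mul_le_mul_of_nonneg_right h2 h3

/-- Uniformly bounded functions with delta data. -/
lemma uniform_delta {a : ℕ → ℂ} {p : ℕ → ℕ} (hU : IsUniversal a p) :
    ∃ M : ℝ, 0 < M ∧ ∀ n, ∃ g : ℂ → ℂ, Differentiable ℂ g ∧
      (∀ z, ‖g z‖ ≤ M * Real.exp (M * rho z)) ∧
      ∀ k κ, κ < p k → iteratedDeriv κ g (a k) / (κ.factorial : ℂ)
        = if κ = p k - 1 ∧ k = n then 1 else 0 := by
  classical
  -- Baire
  obtain ⟨m, x, hx⟩ := nonempty_interior_of_iUnion_of_closed (S_closed a p) (S_cover hU)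
  set y : ℕ → ℕ → Bool := fun n => Function.update x n (!x n) with hy
  have hlim : Tendsto y atTop (𝓝 x) := by
    rw [tendsto_pi_nhds]
    intro k
    apply tendsto_const_nhds.congr'
    filter_upwards [eventually_gt_atTop k] with n hn
    rw [hy]
    simp only
    rw [Function.update_of_ne hn.ne]
  have hev : ∀ᶠ n in atTop, y n ∈ S a p m := by
    filter_upwards [hlim.eventually (isOpen_interior.mem_nhds hx)] with n hn
    exact interior_subset hn
  obtain ⟨n0, hn0⟩ := eventually_atTop.1 hev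
  have hxS : x ∈ S a p m := interior_subset hx
  -- each single one
  have hsingle : ∀ n, ∃ M : ℝ, 0 ≤ M ∧ ∃ g : ℂ → ℂ, Differentiable ℂ g ∧
      (∀ z, ‖g z‖ ≤ M * Real.exp (M * rho z)) ∧
      ∀ k κ, κ < p k → iteratedDeriv κ g (a k) / (κ.factorial : ℂ)
        = if κ = p k - 1 ∧ k = n then 1 else 0 := by
    intro n
    have h1 : (fun k => decide (k = n)) ∈ ⋃ m, S a p m := by
      rw [S_cover hU]
      exact Set.mem_univ _
    obtain ⟨M, g, hg, hb, hd⟩ := Set.mem_iUnion.1 h1
    refine ⟨M, Nat.cast_nonneg M, g, hg, hb, ?_⟩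
    intro k κ hκ
    rw [hd k κ hκ]
    unfold D
    simp
  choose Mn hMn gn hgn using hsingle
  refine ⟨2 * m + ∑ i ∈ Finset.range n0, Mn i + 1, ?_, ?_⟩
  · have : 0 ≤ ∑ i ∈ Finset.range n0, Mn i := Finset.sum_nonneg (fun i _ => hMn i)
    positivity
  intro n
  have hsum0 : 0 ≤ ∑ i ∈ Finset.range n0, Mn i := Finset.sum_nonneg (fun i _ => hMn i)
  have hmono : ∀ (z : ℂ) (c d : ℝ), 0 ≤ c → c ≤ d → c * Real.exp (c * rho z) ≤ d * Real.exp (d * rho z) := by
    intro z c d hc hcd
    apply mul_le_mul hcd _ (Real.exp_pos _).le (hc.trans hcd)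
    apply Real.exp_le_exp.2
    exact mul_le_mul_of_nonneg_right hcd (rho_nonneg z)
  by_cases hn : n < n0
  · refine ⟨gn n, (hgn n).1, ?_, (hgn n).2.2⟩
    intro z
    refine ((hgn n).2.1 z).trans (hmono z _ _ (hMn n) ?_)
    have h1 : Mn n ≤ ∑ i ∈ Finset.range n0, Mn i :=
      Finset.single_le_sum (fun i _ => hMn i) (Finset.mem_range.2 hn)
    have h2 : (0:ℝ) ≤ m := Nat.cast_nonneg m
    linarith
  · push Not at hn
    obtain ⟨g1, hg1, hb1, hd1⟩ := hxS
    obtain ⟨g2, hg2, hb2, hd2⟩ := hn0 n hn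
    -- sign
    set σ : ℂ := if x n = true then 1 else -1 with hσ
    have hσn : ‖σ‖ = 1 := by
      rw [hσ]
      split_ifs <;> simp
    refine ⟨fun z => σ * (g1 z - g2 z), (hg1.sub hg2).const_mul σ, ?_, ?_⟩
    · intro z
      rw [norm_mul, hσn, one_mul]
      have h1 : (0:ℝ) ≤ m := Nat.cast_nonneg m
      have h2 : ‖g1 z - g2 z‖ ≤ 2 * (m * Real.exp (m * rho z)) := by
        refine (norm_sub_le _ _).trans ?_
        have := hb1 z
        have := hb2 z
        linarith
      have h3 : 2 * (m * Real.exp (m * rho z)) ≤ (2 * m) * Real.exp ((2 * m) * rho z) := by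
        rw [← mul_assoc]
        apply mul_le_mul_of_nonneg_left _ (by positivity)
        apply Real.exp_le_exp.2
        have := rho_nonneg z
        rw [rho_eq]
        nlinarith
      refine h2.trans (h3.trans (hmono z _ _ (by positivity) ?_))
      linarith
    · intro k κ hκ
      have h1 : iteratedDeriv κ (fun z => σ * (g1 z - g2 z)) (a k)
          = σ * (iteratedDeriv κ g1 (a k) - iteratedDeriv κ g2 (a k)) := by
        rw [iteratedDeriv_const_mul_field]
        congr 1
        have := iteratedDeriv_sub (n := κ) (x := a k) (f := g1) (g := g2)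
          (hg1.contDiff.contDiffAt) (hg2.contDiff.contDiffAt)
        exact this
      rw [h1, mul_div_assoc, sub_div, hd1 k κ hκ, hd2 k κ hκ]
      unfold D
      by_cases hk : k = n
      · subst hk
        rw [hy]
        simp only [Function.update_self]
        by_cases hκ1 : κ = p k - 1
        · rw [hσ]
          cases hxk : x k <;> simp [hκ1]
        · simp [hκ1]
      · have : y n k = x k := by
          rw [hy]
          simp only
          rw [Function.update_of_ne hk]
        rw [this]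
        simp [hk]

/-- **Positive answer to Q1.** If `V ⊂ V(F)` for some nonzero `F` in the algebra and `V` is a
universal interpolating sequence, then some `f` satisfies condition (2) for `V`. -/
theorem result (a : ℕ → ℂ) (p : ℕ → ℕ) (hV : IsMultiplicitySequence a p)
    (hF : ∃ F : ℂ → ℂ, InEhat F ∧ (∃ z, F z ≠ 0) ∧ VanishesOn a p F) (hU : IsUniversal a p) :
    ∃ f : ℂ → ℂ, Condition2 a p f := by
  classical
  obtain ⟨hinj, -, hp⟩ := hV
  obtain ⟨F, ⟨hFd, A, B, hA, hB, hFb⟩, ⟨z0, hz0⟩, hFv⟩ := hF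
  -- summability
  obtain ⟨C, hC, hcount⟩ := count_zeros hFd hA (K := 3 * B) (by positivity) (by
    intro z
    refine (hFb z).trans ?_
    apply mul_le_mul_of_nonneg_left _ hA.le
    apply Real.exp_le_exp.2
    have := rho_le z
    rw [rho_eq]
    nlinarith) hz0
  have hFz : ∀ n, F (a n) = 0 := by
    intro n
    have := hFv n 0 (hp n)
    simpa using this
  have hsummable := summable_zeros (a := a) hC (by
    intro R hR s hs
    have h1 := hcount R hR (s.image a) (by
      intro b hb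
      rw [Finset.mem_image] at hb
      obtain ⟨n, -, rfl⟩ := hb
      exact hFz n) (by
      intro b hb
      rw [Finset.mem_image] at hb
      obtain ⟨n, hn, rfl⟩ := hb
      exact hs n hn)
    rwa [Finset.card_image_of_injective _ hinj] at h1)
  obtain ⟨M, hM, hg⟩ := uniform_delta hU
  choose g hgd hgb hgv using hg
  set w : ℕ → ℝ := fun n => 1 + ‖a n‖ with hw
  have hw1 : ∀ n, 1 ≤ w n := by
    intro n
    rw [hw]
    simp only
    linarith [norm_nonneg (a n)]
  have hw0 : ∀ n, 0 < w n := fun n => by linarith [hw1 n]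
  set T := ∑' n, (w n ^ 3)⁻¹ with hT
  have hT0 : 0 ≤ T := tsum_nonneg (fun n => by have := hw0 n; positivity)
  set h : ℕ → ℂ → ℂ := fun n z => (z - a n) * g n z with hh
  have hhd : ∀ n, Differentiable ℂ (h n) := fun n =>
    (differentiable_id.sub_const (a n)).mul (hgd n)
  have hhb : ∀ n z, ‖h n z‖ ≤ w n * ((1 + ‖z‖) * (M * Real.exp (M * rho z))) := by
    intro n z
    rw [hh]
    simp only
    rw [norm_mul]
    have h1 : ‖z - a n‖ ≤ w n * (1 + ‖z‖) := by
      refine (norm_sub_le _ _).trans ?_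
      rw [hw]
      simp only
      nlinarith [norm_nonneg z, norm_nonneg (a n), mul_nonneg (norm_nonneg (a n)) (norm_nonneg z)]
    calc ‖z - a n‖ * ‖g n z‖ ≤ (w n * (1 + ‖z‖)) * (M * Real.exp (M * rho z)) :=
          mul_le_mul h1 (hgb n z) (norm_nonneg _) (by have := hw0 n; positivity)
      _ = _ := by ring
  -- values of the derivatives
  have hder0 : ∀ m n κ, κ < p n → iteratedDeriv κ (h m) (a n) = 0 := by
    intro m n κ hκ
    have hfac : ∀ j : ℕ, (j.factorial : ℂ) ≠ 0 := fun j => by exact_mod_cast j.factorial_ne_zero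
    rw [hh]
    simp only
    rw [iter_mul (hgd m)]
    simp only
    by_cases hmn : n = m
    · subst hmn
      rw [sub_self, zero_mul, zero_add]
      rcases κ with _ | κ
      · simp
      · rw [Nat.add_sub_cancel]
        have h1 := hgv n n κ (by omega)
        rw [if_neg (by omega), div_eq_zero_iff] at h1
        rcases h1 with h1 | h1
        · rw [h1, mul_zero]
        · exact absurd h1 (hfac κ)
    · have h1 := hgv m n κ hκ
      rw [if_neg (by tauto), div_eq_zero_iff] at h1
      have h1' : iteratedDeriv κ (g m) (a n) = 0 := by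
        rcases h1 with h1 | h1
        · exact h1
        · exact absurd h1 (hfac κ)
      have h2 := hgv m n (κ - 1) (by omega)
      rw [if_neg (by tauto), div_eq_zero_iff] at h2
      have h2' : iteratedDeriv (κ - 1) (g m) (a n) = 0 := by
        rcases h2 with h2 | h2
        · exact h2
        · exact absurd h2 (hfac _)
      rw [h1', h2', mul_zero, mul_zero, add_zero]
  set t : ℕ → ℕ → ℂ := fun m n => iteratedDeriv (p n) (h m) (a n) / ((p n).factorial : ℂ) with ht
  have htt : ∀ n, t n n = 1 := by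
    intro n
    rw [ht]
    simp only
    rw [hh]
    simp only
    rw [iter_mul (hgd n)]
    simp only
    rw [sub_self, zero_mul, zero_add]
    have h1 := hgv n n (p n - 1) (by have := hp n; omega)
    rw [if_pos ⟨rfl, rfl⟩] at h1
    obtain ⟨q, hq⟩ : ∃ q, p n = q + 1 := ⟨p n - 1, by have := hp n; omega⟩
    rw [hq, Nat.add_sub_cancel] at h1 ⊢
    have hfac : (q.factorial : ℂ) ≠ 0 := by exact_mod_cast q.factorial_ne_zero
    rw [div_eq_one_iff_eq hfac] at h1
    rw [h1, Nat.factorial_succ]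
    push_cast
    have : ((q:ℂ) + 1) ≠ 0 := by exact_mod_cast Nat.succ_ne_zero q
    field_simp
  set r : ℕ → ℝ := fun n => (w n ^ 4)⁻¹ with hr
  have hr0 : ∀ n, 0 < r n := fun n => by have := hw0 n; positivity
  have hrw : ∀ n, r n * w n = (w n ^ 3)⁻¹ := by
    intro n
    rw [hr]
    have := (hw0 n).ne'
    simp only
    field_simp
  set K := 2 * T + 1 with hK
  have hK0 : 0 < K := by positivity
  set Q : ℕ → ℕ := fun n => ⌈K * w n ^ 3⌉₊ with hQ
  have hQpos : ∀ n, 0 < Q n := by
    intro n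
    rw [hQ]
    have := hw0 n
    exact Nat.ceil_pos.2 (by positivity)
  have hQle : ∀ n, 1 / (Q n : ℝ) ≤ (1 / K) * (w n ^ 3)⁻¹ := by
    intro n
    have h1 : K * w n ^ 3 ≤ Q n := Nat.le_ceil _
    have h2 : 0 < K * w n ^ 3 := by have := hw0 n; positivity
    calc 1 / (Q n : ℝ) ≤ 1 / (K * w n ^ 3) := one_div_le_one_div_of_le h2 h1
      _ = (1 / K) * (w n ^ 3)⁻¹ := by rw [one_div, mul_inv, one_div]
  have hsumK : Summable (fun n => (1 / K) * (w n ^ 3)⁻¹) := hsummable.mul_left _
  have hQs : Summable (fun n => 1 / (Q n : ℝ)) :=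
    Summable.of_nonneg_of_le (fun n => by positivity) hQle hsumK
  have hQ1 : ∑' n, 1 / (Q n : ℝ) < 1 := by
    calc ∑' n, 1 / (Q n : ℝ) ≤ ∑' n, (1 / K) * (w n ^ 3)⁻¹ := hQs.tsum_le_tsum hQle hsumK
      _ = (1 / K) * T := by rw [tsum_mul_left]
      _ < 1 := by
        rw [one_div, inv_mul_lt_iff₀ hK0]
        linarith
  -- Cauchy estimate for t
  have htb : ∀ m n, ‖t m n‖ ≤ w m * ((2 + ‖a n‖) * (M * Real.exp (3 * M * (‖a n‖ + 1)))) := by
    intro m n
    rw [ht]
    simp only
    have h1 : ‖iteratedDeriv (p n) (h m) (a n)‖ ≤ (p n).factorial *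
        (w m * ((2 + ‖a n‖) * (M * Real.exp (3 * M * (‖a n‖ + 1))))) / 1 ^ (p n) := by
      apply Complex.norm_iteratedDeriv_le_of_forall_mem_sphere_norm_le _ one_pos
        (hhd m).diffContOnCl
      intro z hz
      have hz1 : ‖z - a n‖ = 1 := by simpa [dist_eq_norm] using hz
      have hz2 : ‖z‖ ≤ ‖a n‖ + 1 := by
        have : z = a n + (z - a n) := by ring
        calc ‖z‖ = ‖a n + (z - a n)‖ := by rw [← this]
          _ ≤ ‖a n‖ + ‖z - a n‖ := norm_add_le _ _
          _ = ‖a n‖ + 1 := by rw [hz1]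
      refine (hhb m z).trans ?_
      have h2 : M * rho z ≤ 3 * M * (‖a n‖ + 1) := by
        have := rho_le z
        rw [rho_eq]
        nlinarith
      have h5 : 1 + ‖z‖ ≤ 2 + ‖a n‖ := by linarith
      apply mul_le_mul_of_nonneg_left _ (hw0 m).le
      apply mul_le_mul h5 _ (by positivity) (by positivity)
      exact mul_le_mul_of_nonneg_left (Real.exp_le_exp.2 h2) hM.le
    rw [one_pow, div_one] at h1
    rw [norm_div, Complex.norm_natCast, div_le_iff₀ (by exact_mod_cast (p n).factorial_pos)]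
    linarith
  have hts : ∀ n, Summable (fun m => r m * ‖t m n‖) := by
    intro n
    apply Summable.of_nonneg_of_le (fun m => by have := hr0 m; positivity) _
      (hsummable.mul_right ((2 + ‖a n‖) * (M * Real.exp (3 * M * (‖a n‖ + 1)))))
    intro m
    calc r m * ‖t m n‖ ≤ r m * (w m * ((2 + ‖a n‖) * (M * Real.exp (3 * M * (‖a n‖ + 1))))) :=
          mul_le_mul_of_nonneg_left (htb m n) (hr0 m).le
      _ = (r m * w m) * ((2 + ‖a n‖) * (M * Real.exp (3 * M * (‖a n‖ + 1)))) := by ring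
      _ = (w m ^ 3)⁻¹ * ((2 + ‖a n‖) * (M * Real.exp (3 * M * (‖a n‖ + 1)))) := by rw [hrw]
  obtain ⟨c, hc, hclow⟩ := generic hr0 hQpos hQs hQ1 htt hts
  -- the function
  set H : ℕ → ℂ → ℂ := fun m z => ((c m : ℝ) : ℂ) * h m z with hH
  have hHd : ∀ m, Differentiable ℂ (H m) := fun m => (hhd m).const_mul _
  have hHb : ∀ m z, ‖H m z‖ ≤ (w m ^ 3)⁻¹ * ((1 + ‖z‖) * (M * Real.exp (M * rho z))) := by
    intro m z
    rw [hH]
    simp only
    rw [norm_mul, Complex.norm_real, Real.norm_of_nonneg (hc m).1]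
    calc c m * ‖h m z‖ ≤ r m * (w m * ((1 + ‖z‖) * (M * Real.exp (M * rho z)))) :=
          mul_le_mul (hc m).2 (hhb m z) (norm_nonneg _) (hr0 m).le
      _ = (r m * w m) * ((1 + ‖z‖) * (M * Real.exp (M * rho z))) := by ring
      _ = _ := by rw [hrw]
  have hloc : LocSummable H := by
    intro R
    refine ⟨fun m => (w m ^ 3)⁻¹ * ((1 + R) * (M * Real.exp (3 * M * R))),
      hsummable.mul_right _, ?_⟩
    intro m z hz
    refine (hHb m z).trans ?_
    have hR : 0 ≤ R := (norm_nonneg z).trans hz.le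
    have h2 : M * rho z ≤ 3 * M * R := by
      have := rho_le z
      rw [rho_eq]
      nlinarith
    have h5 : 1 + ‖z‖ ≤ 1 + R := by linarith
    have h6 := hw0 m
    apply mul_le_mul_of_nonneg_left _ (by positivity)
    apply mul_le_mul h5 _ (by positivity) (by positivity)
    exact mul_le_mul_of_nonneg_left (Real.exp_le_exp.2 h2) hM.le
  obtain hiter := fun κ => (iter_tsum hloc hHd κ).2
  set f : ℂ → ℂ := fun z => ∑' m, H m z with hf
  have hval : ∀ n κ, iteratedDeriv κ f (a n)
      = ∑' m, ((c m : ℝ) : ℂ) * iteratedDeriv κ (h m) (a n) := by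
    intro n κ
    have h1 := congrFun (hiter κ) (a n)
    rw [hf, h1]
    congr 1
    funext m
    rw [hH]
    simp only
    rw [iteratedDeriv_const_mul_field]
  have hlow : ∀ n, r n / (2 * Q n) ≤ ‖iteratedDeriv (p n) f (a n)‖ / ((p n).factorial : ℝ) := by
    intro n
    have h1 : ‖iteratedDeriv (p n) f (a n)‖ / ((p n).factorial : ℝ)
        = ‖∑' m, ((c m : ℝ) : ℂ) * t m n‖ := by
      rw [hval n (p n)]
      have h2 : (∑' m, ((c m : ℝ) : ℂ) * t m n)
          = (∑' m, ((c m : ℝ) : ℂ) * iteratedDeriv (p n) (h m) (a n)) / ((p n).factorial : ℂ) := by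
        rw [← tsum_div_const]
        congr 1
        funext m
        rw [ht]
        simp only
        rw [mul_div_assoc]
      rw [h2, norm_div, Complex.norm_natCast]
    rw [h1]
    exact hclow n
  have hlowpos : ∀ n, 0 < r n / (2 * Q n) := by
    intro n
    have h1 := hr0 n
    have h2 : (0:ℝ) < Q n := by exact_mod_cast hQpos n
    positivity
  refine ⟨f, ⟨⟨hloc.diff hHd, 2 * (T + 1) * M, M + 1, by positivity, by positivity, ?_⟩, ?_⟩, ?_, ?_⟩
  · intro z
    have h1 : ‖f z‖ ≤ T * ((1 + ‖z‖) * (M * Real.exp (M * rho z))) := by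
      rw [hf]
      simp only
      apply tsum_of_norm_bounded _ (fun m => hHb m z)
      exact hsummable.hasSum.mul_right _
    have h2 : 1 + ‖z‖ ≤ 2 * Real.exp (rho z) := by
      have := one_add_sq_le z
      rw [rho_eq]
      nlinarith [norm_nonneg z, sq_nonneg (‖z‖ - 1)]
    calc ‖f z‖ ≤ T * ((1 + ‖z‖) * (M * Real.exp (M * rho z))) := h1
      _ ≤ (T + 1) * ((2 * Real.exp (rho z)) * (M * Real.exp (M * rho z))) := by
        gcongr
        linarith
      _ = 2 * (T + 1) * M * (Real.exp (rho z) * Real.exp (M * rho z)) := by ring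
      _ = 2 * (T + 1) * M * Real.exp ((M + 1) * rho z) := by
        rw [← Real.exp_add]
        congr 2
        ring
  · by_contra hcon
    push Not at hcon
    have hf0 : f = fun _ => (0:ℂ) := funext hcon
    have h1 := hlow 0
    have h2 := hlowpos 0
    have h3 : iteratedDeriv (p 0) f (a 0) = 0 := by
      rw [hf0]
      simp
    rw [h3, norm_zero, zero_div] at h1
    linarith
  · intro n κ hκ
    rw [hval n κ]
    have : ∀ m, ((c m : ℝ) : ℂ) * iteratedDeriv κ (h m) (a n) = 0 := by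
      intro m
      rw [hder0 m n κ hκ, mul_zero]
    simp only [this, tsum_zero]
  · refine ⟨1 / (32 * (K + 1)), 4, by positivity, by norm_num, ?_⟩
    intro n
    refine le_trans ?_ (hlow n)
    have hwn := hw1 n
    have hwn0 := hw0 n
    have h1 : (Q n : ℝ) ≤ (K + 1) * w n ^ 3 := by
      have h2 : (Q n : ℝ) < K * w n ^ 3 + 1 := Nat.ceil_lt_add_one (by positivity)
      have h3 : 1 ≤ w n ^ 3 := one_le_pow₀ hwn
      linarith
    have hQn : (0:ℝ) < Q n := by exact_mod_cast hQpos n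
    have h2 : w n ^ 2 ≤ 2 * Real.exp (rho (a n)) := by
      have h3 := one_add_sq_le (a n)
      rw [rho_eq]
      rw [hw]
      simp only
      nlinarith [norm_nonneg (a n), sq_nonneg (‖a n‖ - 1)]
    have h3 : w n ^ 7 ≤ 16 * Real.exp (4 * rho (a n)) := by
      calc w n ^ 7 ≤ w n ^ 8 := pow_le_pow_right₀ hwn (by norm_num)
        _ = (w n ^ 2) ^ 4 := by ring
        _ ≤ (2 * Real.exp (rho (a n))) ^ 4 := by gcongr
        _ = 16 * Real.exp (4 * rho (a n)) := by
          rw [mul_pow, ← Real.exp_nat_mul]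
          norm_num
    have h4 : r n / (2 * Q n) = 1 / (w n ^ 4 * (2 * Q n)) := by
      rw [hr]
      simp only
      rw [inv_eq_one_div, div_div]
    have h5 : 1 / (32 * (K + 1)) * Real.exp (-(4 * rho (a n)))
        = 1 / (32 * (K + 1) * Real.exp (4 * rho (a n))) := by
      rw [Real.exp_neg]
      field_simp
    rw [h4, h5]
    apply one_div_le_one_div_of_le (by positivity)
    calc w n ^ 4 * (2 * Q n) ≤ w n ^ 4 * (2 * ((K + 1) * w n ^ 3)) := by gcongr
      _ = 2 * (K + 1) * w n ^ 7 := by ring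
      _ ≤ 2 * (K + 1) * (16 * Real.exp (4 * rho (a n))) := by gcongr
      _ = _ := by ring

end

end Pool.Agent.Results.MP_2fa38d_an.UniversalImpliesCondition2
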